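import Mathlib
import Pool.Agent.Lib.MP_f81d8e_an.Ultra

set_option autoImplicit false

namespace Pool.Agent.Retired.MP_f81d8e_an.CommutantUltraproduct

open Pool.Agent.Lib.MP_f81d8e_an

/-- Q1 has a positive answer: the relative commutant of the image of a Kazhdan group in a tracial
matrix ultraproduct is, after a negligible change of the dimensions, an ultraproduct of
star-subalgebras of the matrix algebras. -/
theorem result (G : Type) [Group G] [Countable G] (hT : HasPropertyT G) (S : Finset G)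
    (_hS : ∀ s ∈ S, s⁻¹ ∈ S) (hgen : Subgroup.closure (S : Set G) = ⊤)
    (U : Ultrafilter ℕ) (hU : (U : Filter ℕ) ≤ Filter.cofinite)
    (d : ℕ → ℕ) (hd : ∀ n, 0 < d n) (π : G →* unitary (Ultra U d)) :
    ∃ (m : ℕ → ℕ) (_ : ∀ n, 0 < m n)
      (h : Filter.Tendsto (fun n => (m n : ℝ) / (d n : ℝ)) (U : Filter ℕ) (nhds 1))
      (A : ∀ n, StarSubalgebra ℂ (Matrix (Fin (m n)) (Fin (m n)) ℂ)),
      {x : Ultra U m | ∀ g : G, Commute x (transport h (π g : Ultra U d))} =
        {x : Ultra U m | ∃ a : BddSeq m, (∀ n, a.entry n ∈ A n) ∧ Ultra.mk U a = x} :=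
  main G hT S hgen U hU d hd π

end Pool.Agent.Retired.MP_f81d8e_an.CommutantUltraproduct
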